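import Pool.Agent.Helper83.RB.St

set_option autoImplicit false

namespace Pool.Agent.Helper96.RB

open Pool.Agent.Helper83.RB

section

variable {p : ℕ} [Fact p.Prime] {B : Type} [Ring B] [Algebra (ZMod p) B]

/-- Left multiplication on a stable subspace. -/
noncomputable def lm (W : Submodule (ZMod p) B) (H : Subgroup Bˣ)
    (hW : ∀ g ∈ H, ∀ w ∈ W, (g : B) * w ∈ W) (g : H) : W →ₗ[ZMod p] W :=
  (LinearMap.mulLeft (ZMod p) ((g : Bˣ) : B)).restrict (fun w hw => hW g g.2 w hw)

theorem lm_coe (W : Submodule (ZMod p) B) (H : Subgroup Bˣ)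
    (hW : ∀ g ∈ H, ∀ w ∈ W, (g : B) * w ∈ W) (g : H) (w : W) :
    ((lm W H hW g w : W) : B) = ((g : Bˣ) : B) * w := rfl

/-- The action on the dual space. -/
@[reducible] noncomputable def act (W : Submodule (ZMod p) B) (H : Subgroup Bˣ)
    (hW : ∀ g ∈ H, ∀ w ∈ W, (g : B) * w ∈ W) : MulAction H (W →ₗ[ZMod p] ZMod p) where
  smul g f := f.comp (lm W H hW g⁻¹)
  one_smul f := by
    ext w
    change f (lm W H hW (1 : H)⁻¹ w) = f w
    congr 1
    apply Subtype.ext
    rw [lm_coe]
    simp
  mul_smul g h f := by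
    ext w
    change f (lm W H hW (g * h)⁻¹ w) = f (lm W H hW h⁻¹ (lm W H hW g⁻¹ w))
    congr 1
    apply Subtype.ext
    rw [lm_coe, lm_coe, lm_coe]
    simp [mul_assoc]

theorem step (H : Subgroup Bˣ) (hp : IsPGroup p H) [Finite H]
    (W : Submodule (ZMod p) B) [Module.Finite (ZMod p) W] (hW : ∀ g ∈ H, ∀ w ∈ W, (g : B) * w ∈ W)
    (h0 : 0 < Module.finrank (ZMod p) W) :
    ∃ W' : Submodule (ZMod p) B, W' ≤ W ∧ (∀ g ∈ H, ∀ w ∈ W', (g : B) * w ∈ W') ∧
      Module.finrank (ZMod p) W' < Module.finrank (ZMod p) W ∧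
      ∀ g ∈ H, ∀ w ∈ W, ((g : B) - 1) * w ∈ W' := by
  letI := act W H hW
  have hfin : Finite (W →ₗ[ZMod p] ZMod p) := Module.finite_of_finite (ZMod p)
  have hcard : p ∣ Nat.card (W →ₗ[ZMod p] ZMod p) := by
    have h1 := Module.natCard_eq_pow_finrank (K := ZMod p) (V := (W →ₗ[ZMod p] ZMod p))
    have h2 : Module.finrank (ZMod p) (W →ₗ[ZMod p] ZMod p) = Module.finrank (ZMod p) W :=
      Subspace.dual_finrank_eq
    rw [h1, h2, Nat.card_zmod]
    exact dvd_pow_self p (by omega)
  have hfix0 : (0 : W →ₗ[ZMod p] ZMod p) ∈ MulAction.fixedPoints H (W →ₗ[ZMod p] ZMod p) := by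
    intro g
    change (0 : W →ₗ[ZMod p] ZMod p).comp (lm W H hW g⁻¹) = 0
    simp
  obtain ⟨f, hf, hf0⟩ := hp.exists_fixed_point_of_prime_dvd_card_of_fixed_point
    (W →ₗ[ZMod p] ZMod p) hcard hfix0
  have hfg : ∀ (g : H) (w : W), f (lm W H hW g w) = f w := by
    intro g w
    have h1 := hf g⁻¹
    have h2 : (f.comp (lm W H hW g⁻¹⁻¹)) w = f w := by
      have : f.comp (lm W H hW g⁻¹⁻¹) = f := h1
      rw [this]
    rw [inv_inv] at h2
    exact h2
  refine ⟨(LinearMap.ker f).map W.subtype, ?_, ?_, ?_, ?_⟩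
  · intro x hx
    obtain ⟨y, _, rfl⟩ := hx
    exact y.2
  · intro g hg w hw
    obtain ⟨y, hy, rfl⟩ := hw
    refine ⟨lm W H hW ⟨g, hg⟩ y, ?_, rfl⟩
    have : f y = 0 := hy
    change f _ = 0
    rw [hfg, this]
  · rw [Submodule.finrank_map_subtype_eq]
    have h1 := LinearMap.finrank_range_add_finrank_ker f
    have h2 : 0 < Module.finrank (ZMod p) (LinearMap.range f) := by
      rw [Module.finrank_pos_iff]
      by_contra hne
      rw [not_nontrivial_iff_subsingleton] at hne
      apply hf0
      symm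
      ext w
      have := Subsingleton.elim (⟨f w, ⟨w, rfl⟩⟩ : LinearMap.range f) 0
      simpa using congrArg Subtype.val this
    omega
  · intro g hg w hw
    refine ⟨lm W H hW ⟨g, hg⟩ ⟨w, hw⟩ - ⟨w, hw⟩, ?_, ?_⟩
    · change f _ = 0
      rw [map_sub, hfg, sub_self]
    · rw [map_sub]
      change (g : B) * w - w = _
      rw [sub_mul, one_mul]

theorem kills (H : Subgroup Bˣ) (hp : IsPGroup p H) [Finite H] (n : ℕ) :
    ∀ (W : Submodule (ZMod p) B), Module.Finite (ZMod p) W →
      (∀ g ∈ H, ∀ w ∈ W, (g : B) * w ∈ W) → Module.finrank (ZMod p) W ≤ n →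
      ∀ l : List Bˣ, (∀ g ∈ l, g ∈ H) → l.length = n →
      ∀ w ∈ W, (l.map fun g : Bˣ => (g : B) - 1).prod * w = 0 := by
  induction n with
  | zero =>
    intro W hfin _ hr l _ _ w hw
    have : W = ⊥ := Submodule.finrank_eq_zero.mp (by omega)
    rw [this, Submodule.mem_bot] at hw
    rw [hw, mul_zero]
  | succ n ih =>
    intro W hfin hW hr l hl hlen w hw
    rcases Nat.eq_zero_or_pos (Module.finrank (ZMod p) W) with h0 | h0
    · have : W = ⊥ := Submodule.finrank_eq_zero.mp h0
      rw [this, Submodule.mem_bot] at hw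
      rw [hw, mul_zero]
    · obtain ⟨W', hle, hst, hlt, hk⟩ := step H hp W hW h0
      rcases List.eq_nil_or_concat l with rfl | ⟨l', g, rfl⟩
      · simp at hlen
      · have hfin' : Module.Finite (ZMod p) W' := Submodule.finiteDimensional_of_le hle
        have hg : g ∈ H := hl g (by simp)
        have h1 := ih W' hfin' hst (by omega) l' (fun x hx => hl x (by simp [hx]))
          (by simpa using hlen) (((g : B) - 1) * w) (hk g hg w hw)
        simp only [List.map_append, List.map_cons, List.map_nil, List.prod_append, List.prod_cons,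
          List.prod_nil, mul_one, List.concat_eq_append]
        rw [mul_assoc]
        exact h1

end

theorem conv {B : Type} [Ring B] (l : List Bˣ) :
    (l.map fun g => (g : B) - 1) = l.map fun g : Bˣ => (g : B) - 1 := by
  induction l with
  | nil => rfl
  | cons a l ih =>
    have h : ∀ m : List Bˣ, (do let a ← m; pure (a : B)) = m.map fun g : Bˣ => (g : B) := by
      intro m
      induction m with
      | nil => rfl
      | cons b m ihm =>
        simp only [List.bind_eq_flatMap, List.flatMap_cons, List.pure_def, List.map_cons,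
          List.singleton_append] at ihm ⊢
        rw [ihm]
    rw [h]
    simp

theorem hUNI : StUNI := by
  intro p δ _ B _ _ H hH S hS hspan l hl hlen
  set V : Submodule (ZMod p) B := Submodule.span (ZMod p) {b : B | ∃ g ∈ H, b = (g : B)} with hV
  have hVle : V ≤ Submodule.span (ZMod p) (S : Set B) := by
    rw [hV, Submodule.span_le]
    rintro b ⟨g, hg, rfl⟩
    exact hspan g hg
  have hfinS : Module.Finite (ZMod p) (Submodule.span (ZMod p) (S : Set B)) :=
    Module.Finite.span_finset _ S
  have hfinV : Module.Finite (ZMod p) V := Submodule.finiteDimensional_of_le hVle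
  have hrV : Module.finrank (ZMod p) V ≤ δ := by
    refine (Submodule.finrank_mono hVle).trans ((finrank_span_finset_le_card S).trans hS)
  have hVf : Finite V := Module.finite_of_finite (ZMod p)
  have hfinH : Finite H := by
    refine Finite.of_injective
      (fun g : H => (⟨((g : Bˣ) : B), Submodule.subset_span ⟨g, g.2, rfl⟩⟩ : V)) ?_
    intro a b hab
    have h1 := congrArg Subtype.val hab
    exact Subtype.ext (Units.ext h1)
  have hpH : IsPGroup p H := by
    intro g
    refine ⟨1, ?_⟩
    rw [pow_one]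
    exact Subtype.ext (hH g g.2)
  have hst : ∀ g ∈ H, ∀ w ∈ V, (g : B) * w ∈ V := by
    intro g hg w hw
    induction hw using Submodule.span_induction with
    | mem x hx =>
      obtain ⟨h, hh, rfl⟩ := hx
      exact Submodule.subset_span ⟨g * h, H.mul_mem hg hh, by simp⟩
    | zero => simp
    | add x y _ _ hx hy => rw [mul_add]; exact V.add_mem hx hy
    | smul a x _ hx => rw [mul_smul_comm]; exact V.smul_mem a hx
  have h1V : (1 : B) ∈ V := Submodule.subset_span ⟨1, H.one_mem, by simp⟩
  obtain ⟨l1, l2, rfl, h2⟩ : ∃ l1 l2 : List Bˣ, l = l1 ++ l2 ∧ l2.length = δ := by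
    refine ⟨l.take (l.length - δ), l.drop (l.length - δ), (List.take_append_drop _ _).symm, ?_⟩
    rw [List.length_drop]
    omega
  have := kills H hpH δ V hfinV hst hrV l2 (fun g hg => hl g (by simp [hg])) h2 1 h1V
  rw [mul_one] at this
  rw [conv, List.map_append, List.prod_append, this, mul_zero]

end Pool.Agent.Helper96.RB
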